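import Pool.Agent.H741.RS.Stm

/-!
# RS QUAD (for helper741): the quadratic estimate
-/

set_option autoImplicit false
open scoped ComplexConjugate

namespace Pool.Agent.H772.RS

open Pool.Agent.H741.RS

theorem hp_map {n : ℕ} (U : V n ≃ₗᵢ[ℂ] V n) (z w : V n) : hp (U z) w = hp z (U⁻¹ w) := by
  have h1 : w = U (U⁻¹ w) := by
    rw [LinearIsometryEquiv.coe_inv, LinearIsometryEquiv.apply_symm_apply]
  have h2 : hp (U z) (U (U⁻¹ w)) = hp z (U⁻¹ w) := LinearIsometryEquiv.inner_map_map U _ _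
  rw [← h1] at h2
  exact h2

theorem hp_map' {n : ℕ} (U : V n ≃ₗᵢ[ℂ] V n) (z w : V n) : hp (U⁻¹ z) w = hp z (U w) := by
  have := hp_map U⁻¹ z w
  rwa [inv_inv] at this

theorem hp_sub_left {n : ℕ} (a b w : V n) : hp (a - b) w = hp a w - hp b w :=
  inner_sub_right _ _ _

theorem hp_sub_right {n : ℕ} (z a b : V n) : hp z (a - b) = hp z a - hp z b :=
  inner_sub_left _ _ _

/-- the skew-adjoint part -/
theorem skew {n : ℕ} (U : V n ≃ₗᵢ[ℂ] V n) (z w : V n) :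
    hp (((U : V n →L[ℂ] V n) - ((U⁻¹ : V n ≃ₗᵢ[ℂ] V n) : V n →L[ℂ] V n)) z) w =
      - hp z (((U : V n →L[ℂ] V n) - ((U⁻¹ : V n ≃ₗᵢ[ℂ] V n) : V n →L[ℂ] V n)) w) := by
  have e1 : ∀ y : V n, ((U : V n →L[ℂ] V n) - ((U⁻¹ : V n ≃ₗᵢ[ℂ] V n) : V n →L[ℂ] V n)) y =
      U y - U⁻¹ y := fun _ => rfl
  rw [e1, e1, hp_sub_left, hp_sub_right, hp_map, hp_map']
  ring

theorem cm_inv {n : ℕ} {h : V n →L[ℂ] V n} {U : V n ≃ₗᵢ[ℂ] V n} (hU : Cm h U) : Cm h U⁻¹ := by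
  intro z
  have h1 := hU (U⁻¹ z)
  have h2 : U (U⁻¹ z) = z := by
    rw [LinearIsometryEquiv.coe_inv, LinearIsometryEquiv.apply_symm_apply]
  rw [h2] at h1
  have h3 : U⁻¹ (h z) = U⁻¹ (U (h (U⁻¹ z))) := by rw [h1]
  rw [h3, LinearIsometryEquiv.coe_inv, LinearIsometryEquiv.symm_apply_apply]

/-- the second order part -/
theorem second {n : ℕ} (U : V n ≃ₗᵢ[ℂ] V n) :
    ‖(U : V n →L[ℂ] V n) + ((U⁻¹ : V n ≃ₗᵢ[ℂ] V n) : V n →L[ℂ] V n) -
      (ContinuousLinearMap.id ℂ (V n) + ContinuousLinearMap.id ℂ (V n))‖ ≤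
      ‖(U : V n →L[ℂ] V n) - ContinuousLinearMap.id ℂ (V n)‖ ^ 2 := by
  refine ContinuousLinearMap.opNorm_le_bound _ (sq_nonneg _) fun z => ?_
  obtain ⟨T, hT⟩ : ∃ T : V n →L[ℂ] V n,
    T = (U : V n →L[ℂ] V n) - ContinuousLinearMap.id ℂ (V n) := ⟨_, rfl⟩
  rw [← hT]
  have e1 : ∀ y, T y = U y - y := fun y => by
    rw [hT]
    rfl
  have e2 : ((U : V n →L[ℂ] V n) + ((U⁻¹ : V n ≃ₗᵢ[ℂ] V n) : V n →L[ℂ] V n) -
      (ContinuousLinearMap.id ℂ (V n) + ContinuousLinearMap.id ℂ (V n))) z =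
      U⁻¹ (T (T z)) := by
    have e3 : ((U : V n →L[ℂ] V n) + ((U⁻¹ : V n ≃ₗᵢ[ℂ] V n) : V n →L[ℂ] V n) -
      (ContinuousLinearMap.id ℂ (V n) + ContinuousLinearMap.id ℂ (V n))) z =
      U z + U⁻¹ z - (z + z) := rfl
    have e4 : ∀ y, U⁻¹ (U y) = y := fun y => by
      rw [LinearIsometryEquiv.coe_inv, LinearIsometryEquiv.symm_apply_apply]
    have e5 : T (T z) = U (U z - z) - (U z - z) := by rw [e1 (T z), e1 z]
    rw [e3, e5, map_sub (U⁻¹), e4, map_sub (U⁻¹), e4]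
    abel
  rw [e2, LinearIsometryEquiv.norm_map]
  calc ‖T (T z)‖ ≤ ‖T‖ * ‖T z‖ := T.le_opNorm _
    _ ≤ ‖T‖ * (‖T‖ * ‖z‖) := mul_le_mul_of_nonneg_left (T.le_opNorm _) (norm_nonneg _)
    _ = ‖T‖ ^ 2 * ‖z‖ := by ring

theorem t_QUAD (h1 : S_EQUI) : S_QUAD := by
  intro n G iG h hG E i1 i2 i3 R x w hfix hker
  -- the linear functional
  let φ : (V n →L[ℂ] V n) →ₗ[ℝ] ℝ :=
    { toFun := fun T => inner ℝ (R.D T x) w
      map_add' := fun S T => by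
        rw [map_add, LinearMap.add_apply, inner_add_left]
      map_smul' := fun c T => by
        rw [map_smul, LinearMap.smul_apply, real_inner_smul_left]
        rfl }
  have hφ : ∀ T, φ T = inner ℝ (R.D T x) w := fun _ => rfl
  -- it vanishes on the skew-adjoint operators which commute with h
  have hvan : ∀ Y : V n →L[ℂ] V n, (∀ z w, hp (Y z) w = - hp z (Y w)) →
      (∀ z, Y (h z) = h (Y z)) → φ Y = 0 := by
    intro Y hY hYh
    obtain ⟨A, hA⟩ : ∃ A : (V n ≃ₗᵢ[ℂ] V n) → (V n →L[ℂ] V n), ∀ g, A g =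
      (g : V n →L[ℂ] V n) ∘L Y ∘L ((g⁻¹ : V n ≃ₗᵢ[ℂ] V n) : V n →L[ℂ] V n) := ⟨_, fun _ => rfl⟩
    have hAa : ∀ g z, A g z = g (Y (g⁻¹ z)) := fun g z => by
      rw [hA]
      rfl
    have hAD : ∀ g ∈ G, φ (A g) = φ Y := by
      intro g hg
      obtain ⟨hx, hw⟩ := hfix g hg
      have h2 := h1 n E i1 i2 i3 R Y g x hY
      rw [← hA, hx] at h2
      rw [hφ, hφ, h2]
      have h3 : inner ℝ (R.ρ g (R.D Y x)) (R.ρ g w) = inner ℝ (R.D Y x) w :=
        LinearIsometryEquiv.inner_map_map (R.ρ g) _ _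
      rw [hw] at h3
      exact h3
    have hsum : φ (∑ g : G, A g.1) = Fintype.card G * φ Y := by
      rw [map_sum, Finset.sum_congr rfl fun g _ => hAD g.1 g.2, Finset.sum_const,
        Finset.card_univ, nsmul_eq_mul]
    have hzero : φ (∑ g : G, A g.1) = 0 := by
      refine hker _ (fun z w => ?_) (fun g' hg' z => ?_) ?_
      · have e1 : hp ((∑ g : G, A g.1) z) w = ∑ g : G, hp (A g.1 z) w := by
          unfold hp
          rw [sum_apply, inner_sum]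
        have e2 : hp z ((∑ g : G, A g.1) w) = ∑ g : G, hp z (A g.1 w) := by
          unfold hp
          rw [sum_apply, sum_inner]
        rw [e1, e2, ← Finset.sum_neg_distrib]
        refine Finset.sum_congr rfl fun g _ => ?_
        rw [hAa, hAa, hp_map, hY, hp_map']
      · rw [sum_apply, sum_apply, map_sum]
        refine Fintype.sum_equiv (Equiv.mulLeft (⟨g', hg'⟩⁻¹ : G)) _ _ fun g => ?_
        rw [hAa, hAa]
        have e3 : (((Equiv.mulLeft (⟨g', hg'⟩⁻¹ : G)) g : G) : V n ≃ₗᵢ[ℂ] V n) =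
          g'⁻¹ * g.1 := rfl
        have e5 : ∀ (a b : V n ≃ₗᵢ[ℂ] V n) (y : V n), (a * b) y = a (b y) := fun _ _ _ => rfl
        have e4 : ∀ y, g' (g'⁻¹ y) = y := fun y => by
          rw [LinearIsometryEquiv.coe_inv, LinearIsometryEquiv.apply_symm_apply]
        rw [e3, mul_inv_rev, inv_inv, e5, e5, e4]
      · ext1 z
        rw [ContinuousLinearMap.comp_apply, ContinuousLinearMap.comp_apply,
          sum_apply, sum_apply, map_sum]
        refine Finset.sum_congr rfl fun g _ => ?_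
        rw [hAa, hAa, ← cm_inv (hG.cm g.1 g.2) z, hYh, hG.cm g.1 g.2]
    rw [hsum] at hzero
    rcases mul_eq_zero.mp hzero with h4 | h4
    · exfalso
      have h5 : 0 < Fintype.card G := Fintype.card_pos
      have h6 : (Fintype.card G : ℝ) ≠ 0 := by exact_mod_cast h5.ne'
      exact h6 h4
    · exact h4
  -- the bound
  have hfd : FiniteDimensional ℝ (V n →L[ℂ] V n) := FiniteDimensional.complexToReal _
  obtain ⟨M, hM0, hM⟩ : ∃ M : ℝ, 0 ≤ M ∧ ∀ T, |φ T| ≤ M * ‖T‖ := by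
    refine ⟨‖LinearMap.toContinuousLinearMap φ‖,
      (LinearMap.toContinuousLinearMap φ).opNorm_nonneg, fun T => ?_⟩
    exact (LinearMap.toContinuousLinearMap φ).le_opNorm T
  refine ⟨R.C * ‖x‖ * ‖w‖ + M, add_nonneg (mul_nonneg (mul_nonneg R.hC (norm_nonneg _))
    (norm_nonneg _)) hM0, fun U hU => ?_⟩
  obtain ⟨T, hT⟩ : ∃ T : V n →L[ℂ] V n,
    T = (U : V n →L[ℂ] V n) - ContinuousLinearMap.id ℂ (V n) := ⟨_, rfl⟩
  have hD := R.hD U x
  have hsec := second U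
  rw [← hT] at hD hsec ⊢
  have e1 : inner ℝ (R.ρ U x - x) w = inner ℝ (R.ρ U x - x - R.D T x) w + φ T := by
    rw [hφ, ← inner_add_left]
    congr 1
    abel
  have e2 : |inner ℝ (R.ρ U x - x - R.D T x) w| ≤ R.C * ‖x‖ * ‖w‖ * ‖T‖ ^ 2 := by
    refine (abs_real_inner_le_norm _ _).trans ?_
    refine (mul_le_mul_of_nonneg_right hD (norm_nonneg _)).trans (le_of_eq ?_)
    ring
  have e3 : φ T + φ T = φ ((U : V n →L[ℂ] V n) + ((U⁻¹ : V n ≃ₗᵢ[ℂ] V n) : V n →L[ℂ] V n) -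
      (ContinuousLinearMap.id ℂ (V n) + ContinuousLinearMap.id ℂ (V n))) := by
    have h2 := hvan ((U : V n →L[ℂ] V n) - ((U⁻¹ : V n ≃ₗᵢ[ℂ] V n) : V n →L[ℂ] V n)) (skew U)
      (fun z => by
        have e4 : ∀ y : V n, ((U : V n →L[ℂ] V n) - ((U⁻¹ : V n ≃ₗᵢ[ℂ] V n) : V n →L[ℂ] V n)) y =
          U y - U⁻¹ y := fun _ => rfl
        rw [e4, e4, map_sub, hU z, cm_inv hU z])
    rw [← map_add, ← sub_eq_zero, ← map_sub, ← h2]
    congr 1
    rw [hT]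
    abel
  have e4 : |φ T| ≤ M * ‖T‖ ^ 2 := by
    have h2 := hM ((U : V n →L[ℂ] V n) + ((U⁻¹ : V n ≃ₗᵢ[ℂ] V n) : V n →L[ℂ] V n) -
      (ContinuousLinearMap.id ℂ (V n) + ContinuousLinearMap.id ℂ (V n)))
    rw [← e3] at h2
    have h3 : |φ T + φ T| = 2 * |φ T| := by
      rw [← two_mul, abs_mul, abs_two]
    rw [h3] at h2
    have h4 := mul_le_mul_of_nonneg_left hsec hM0
    have h5 := abs_nonneg (φ T)
    linarith
  rw [e1]
  refine (abs_add_le _ _).trans ?_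
  rw [add_mul]
  exact add_le_add e2 e4

end Pool.Agent.H772.RS
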